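import Pool.Agent.R957.CP.Plane
import Pool.Agent.R957.CP.Cases

/-!
# Congruent central projections from antipodal points do not force a centre of symmetry

The definitions `cone`, `proj` and the explicit planar body `Kbody` are in
`Pool.Agent.R957.CP.Defs`: `cone K x = {x + l (y - x) : y ∈ K, l ≥ 0}` and
`proj K x = cone K x ∩ x^⊥`.
-/

open Set Pool.Agent.R957.CP
open scoped MeasureTheory

namespace Pool.Agent.Results.MP_39a3b1_gt.NotSymmetric

/-- There is a convex body `K` in the open unit disc of the plane such that for every point `x` of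
the unit circle the central projections of `K` from `x` and from `-x` onto the line `x^⊥` are
translates of each other (in particular congruent and of equal length), but `K` has no centre of
symmetry; in particular `K` is not a Euclidean ball. -/
theorem result : ∃ K : Set (EuclideanSpace ℝ (Fin 2)),
    IsCompact K ∧ Convex ℝ K ∧ (interior K).Nonempty ∧ K ⊆ Metric.ball 0 1 ∧
    (∀ x ∈ Metric.sphere (0 : EuclideanSpace ℝ (Fin 2)) 1,
      (∃ v : EuclideanSpace ℝ (Fin 2), inner ℝ v x = 0 ∧
        proj K (-x) = (fun z => v + z) '' proj K x) ∧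
      (∃ g : EuclideanSpace ℝ (Fin 2) ≃ᵢ EuclideanSpace ℝ (Fin 2),
        proj K (-x) = g '' proj K x) ∧
      μH[1] (proj K (-x)) = μH[1] (proj K x)) ∧
    (¬ ∃ c : EuclideanSpace ℝ (Fin 2), ∀ y ∈ K, (2 : ℝ) • c - y ∈ K) ∧
    (¬ ∃ (c : EuclideanSpace ℝ (Fin 2)) (r : ℝ), K = Metric.closedBall c r) := by
  have hnc : ¬ ∃ c : EuclideanSpace ℝ (Fin 2), ∀ y ∈ Kbody, (2 : ℝ) • c - y ∈ Kbody := by
    refine K_no_center ?_ corner2 corner5
    constructor
    · intro A h1 h2; exact f0_right (by norm_num) (by norm_num) h2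
    · intro m h1 h2
      nlinarith [sq_nonneg m, sq_nonneg (m^2), mul_nonneg (sub_nonneg.2 h2)
        (show (0:ℝ) ≤ m + 9/40 by linarith)]
    · intro A h1 h2; exact f2_left (by norm_num) (by norm_num) h1
    · intro v h1 h2; exact f3_left (by norm_num) (by norm_num) h1 h2
    · intro v h1 h2; exact f5_right (by norm_num) (by norm_num) h1 h2
    · intro m h1 h2; exact top_of_low (by norm_num) (by norm_num) (by norm_num) m h1 h2
  refine ⟨Kbody, K_compact, K_convex, K_interior, K_subset_ball, ?_, hnc, ?_⟩
  · intro x hx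
    obtain ⟨v, hv, hp⟩ := translate_of_good good_all x hx
    refine ⟨⟨v, hv, hp⟩, ⟨IsometryEquiv.addLeft v, hp⟩, ?_⟩
    rw [hp]
    exact (IsometryEquiv.addLeft v).isometry.hausdorffMeasure_image (Or.inl zero_le_one) _
  · rintro ⟨c, r, hc⟩
    apply hnc
    refine ⟨c, fun y hy => ?_⟩
    rw [hc, Metric.mem_closedBall, dist_eq_norm] at hy ⊢
    have : (2 : ℝ) • c - y - c = -(y - c) := by
      rw [two_smul]; abel
    rw [this, norm_neg]
    exact hy

end Pool.Agent.Results.MP_39a3b1_gt.NotSymmetric
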